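import Pool.Agent.PW.StmtsA

/-!
# Squad PW, row DSC: ideal power descent
-/

set_option autoImplicit false

namespace Pool.Agent.PW.H51

open MvPolynomial
open Pool.Agent.RS (FF io)

theorem isUG_mono {E : Type} [Field E] {G G' : Finset ℕ} (hG : G ⊆ G')
    {g : MvPolynomial ℕ E} (h : IsUG G g) : IsUG G' g := by
  intro i j hij hh
  apply h i j hij
  rcases hh with hh | hh
  · exact Or.inl fun h' => hh (hG h')
  · exact Or.inr fun h' => hh (hG h')

theorem inv_nat_mul {E : Type} [Field E] (n : ℕ) (x : FF E) :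
    ((n : FF E))⁻¹ * x = ((n : E))⁻¹ • x := by
  rw [Algebra.smul_def, map_inv₀, map_natCast]

theorem dsc (hPIV : PivsStmt) (hVAN : VanStmt) (hEUF : EufStmt) (hFGS : FgsStmt) (hFGM : FgmStmt)
    (hRRS : RrsStmt) : DscStmt := by
  intro c0 ρ c k g
  refine ⟨g + ρ * c + c + k + ρ, g + ρ * c + c, g + ρ * (c + 1), ?_⟩
  intro E _ _ y G H hGg hli hUG hrob hFG hRR hFi
  obtain ⟨hmG, hmc, _, _, hm0⟩ := hFGM E
  -- the membership in a linear subspace
  have hadd : ∀ (c : ℕ) (G : Finset ℕ) (v w : FF E), FG c G v → FG c G w → FG c G (v + w) := by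
    intro c G v w hv hw
    obtain ⟨S, hS⟩ := hFGS E c G
    exact (hS _).1 (S.add_mem ((hS _).2 hv) ((hS _).2 hw))
  have hsm : ∀ (c : ℕ) (G : Finset ℕ) (r : E) (w : FF E), FG c G w → FG c G (r • w) := by
    intro c G r w hw
    obtain ⟨S, hS⟩ := hFGS E c G
    exact (hS _).1 (S.smul_mem r ((hS _).2 hw))
  have hzero : ∀ (c : ℕ) (G : Finset ℕ), FG c G (0 : FF E) := by
    intro c G
    obtain ⟨S, hS⟩ := hFGS E c G
    exact (hS _).1 S.zero_mem
  have hradd : ∀ (k : ℕ) (v w : FF E), RR k v → RR k w → RR k (v + w) := by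
    intro k v w hv hw
    obtain ⟨_, ⟨S, hS⟩, _⟩ := hRRS E k
    exact (hS _).1 (S.add_mem ((hS _).2 hv) ((hS _).2 hw))
  have hrsm : ∀ (k : ℕ) (r : E) (w : FF E), RR k w → RR k (r • w) := by
    intro k r w hw
    obtain ⟨_, ⟨S, hS⟩, _⟩ := hRRS E k
    exact (hS _).1 (S.smul_mem ((hS _).2 hw) r)
  have hrzero : ∀ (k : ℕ), RR k (0 : FF E) := by
    intro k
    obtain ⟨_, ⟨S, hS⟩, _⟩ := hRRS E k
    exact (hS _).1 S.zero_mem
  have hrmono : ∀ (k k' : ℕ) (w : FF E), k ≤ k' → RR k w → RR k' w := by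
    intro k k' w hk hw
    exact (hRRS E k).2.2.2.1 k' w hk hw
  -- the induction
  have key : ∀ l : ℕ, l ≤ c → ∃ (U : Finset ℕ) (Hl : FF E) (h : Fin ρ → FF E),
      U.card ≤ ρ * l ∧ FG c (G ∪ U) Hl ∧ RR (k + ρ) Hl ∧
      H - Hl = ∑ a, io E (y a) * h a ∧
      (∀ a, FG (g + ρ * c + c + k + ρ) ∅ (h a) ∧ RR (g + ρ * c + c + k + ρ) (h a)) ∧
      ∀ (J1 : Finset ℕ) (Fi : ℕ → FF E → Prop), G ∪ U ⊆ J1 → Filt c0 k y J1 Fi → Fi 1 H →
        Fi (l + 1) Hl := by
    intro l
    induction l with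
    | zero =>
      intro _
      refine ⟨∅, H, fun _ => 0, ?_, ?_, hrmono k _ H (Nat.le_add_right _ _) hRR, ?_, ?_, ?_⟩
      · rw [Finset.card_empty]; exact Nat.zero_le _
      · rw [Finset.union_empty]; exact hFG
      · rw [sub_self]
        symm
        apply Finset.sum_eq_zero
        intro a _
        rw [mul_zero]
      · intro a
        exact ⟨hzero _ _, hrzero _⟩
      · intro J1 Fi _ _ h
        exact h
    | succ l ih =>
      intro hl
      obtain ⟨U, Hl, h, hU, hFl, hRl, hsub, hh, hJ⟩ := ih (by omega)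
      obtain ⟨c1, rfl⟩ : ∃ c1, c = c1 + 1 := ⟨c - 1, by omega⟩
      have hlc : ρ * l + ρ ≤ ρ * (c1 + 1) := by
        have h1 : ρ * (l + 1) ≤ ρ * (c1 + 1) := Nat.mul_le_mul_left ρ hl
        rw [Nat.mul_add, Nat.mul_one] at h1
        exact h1
      have hc2 : ρ * (c1 + 1 + 1) = ρ * (c1 + 1) + ρ := by rw [Nat.mul_add _ (c1 + 1), Nat.mul_one]
      obtain ⟨z, hz, hzU⟩ := hPIV E ρ (g + ρ * (c1 + 1 + 1)) y G U hli hUG hrob (by
        have h1 : (U ∪ G).card ≤ U.card + G.card := Finset.card_union_le U G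
        omega)
      have hzG : ∀ b, z b ∉ G ∪ U := by
        intro b
        rw [Finset.union_comm]
        exact hzU b
      obtain ⟨hdel, hef, her⟩ := hEUF E ρ c1 (k + ρ) (l + 1) y (G ∪ U) z Hl
        (fun a => isUG_mono Finset.subset_union_left (hUG a)) hz hzG hFl hRl (Nat.le_add_left _ _)
      have himg : (Finset.univ.image z).card ≤ ρ := by
        have h1 : (Finset.univ.image z).card ≤ (Finset.univ : Finset (Fin ρ)).card :=
          Finset.card_image_le
        rw [Finset.card_univ, Fintype.card_fin] at h1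
        exact h1
      refine ⟨U ∪ Finset.univ.image z, eul y z (l + 1) Hl,
        fun a => h a + ((l + 1 : ℕ) : FF E)⁻¹ * del y z a Hl, ?_, ?_, her, ?_, ?_, ?_⟩
      · have h1 : (U ∪ Finset.univ.image z).card ≤ U.card + (Finset.univ.image z).card :=
          Finset.card_union_le _ _
        rw [Nat.mul_add, Nat.mul_one]
        omega
      · rw [← Finset.union_assoc]
        exact hef
      · have h1 : H - eul y z (l + 1) Hl =
            (H - Hl) + ((l + 1 : ℕ) : FF E)⁻¹ * ∑ a, io E (y a) * del y z a Hl := by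
          unfold eul
          ring
        rw [h1, hsub, Finset.mul_sum, ← Finset.sum_add_distrib]
        apply Finset.sum_congr rfl
        intro a _
        ring
      · intro a
        obtain ⟨hd1, hd2⟩ := hdel a
        have hcard : (G ∪ U ∪ Finset.univ.image z).card ≤ g + ρ * (c1 + 1) := by
          have h1 : (G ∪ U ∪ Finset.univ.image z).card ≤
            (G ∪ U).card + (Finset.univ.image z).card := Finset.card_union_le _ _
          have h2 : (G ∪ U).card ≤ G.card + U.card := Finset.card_union_le _ _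
          omega
        have h3 : FG (g + ρ * (c1 + 1) + (c1 + 1) + k + ρ) ∅ (del y z a Hl) :=
          hmc _ _ ∅ _ (by omega) (hm0 c1 _ _ hd1)
        constructor
        · show FG _ ∅ (h a + ((l + 1 : ℕ) : FF E)⁻¹ * del y z a Hl)
          rw [inv_nat_mul]
          exact hadd _ _ _ _ (hh a).1 (hsm _ _ _ _ h3)
        · show RR _ (h a + ((l + 1 : ℕ) : FF E)⁻¹ * del y z a Hl)
          rw [inv_nat_mul]
          exact hradd _ _ _ (hh a).2 (hrsm _ _ _ (hrmono _ _ _ (by omega) hd2))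
      · intro J1 Fi hsubJ hF h1
        have hG1 : G ∪ U ⊆ J1 := by
          intro i hi
          apply hsubJ
          rw [← Finset.union_assoc]
          exact Finset.mem_union_left _ hi
        have hz1 : ∀ b, z b ∈ J1 := by
          intro b
          apply hsubJ
          rw [← Finset.union_assoc]
          exact Finset.mem_union_right _ (Finset.mem_image_of_mem z (Finset.mem_univ b))
        exact hF.eul z hz hz1 (l + 1) Hl (Nat.succ_pos l) (hJ J1 Fi hG1 hF h1)
  obtain ⟨U, Hc, h, hU, hFc, hRc, hsub, hh, hJ⟩ := key c le_rfl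
  have hHc : Hc = 0 := by
    apply hVAN E ρ c0 k y c (G ∪ U) Hc hFc
    intro J1 hJ1 hcard
    have hGJ : G ⊆ J1 := Finset.subset_union_left.trans hJ1
    obtain ⟨Fi, hF, hF1⟩ := hFi J1 hGJ (by
      have h2 : (G ∪ U).card ≤ G.card + U.card := Finset.card_union_le _ _
      omega)
    exact ⟨Fi, hF, hJ J1 Fi hJ1 hF hF1⟩
  rw [hHc, sub_zero] at hsub
  exact ⟨h, hsub, hh⟩

end Pool.Agent.PW.H51
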